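import Pool.Agent.Helper38.VF.Goals2

/-!
# Project VTF, packet TR2: approximation in Hilbert spaces
-/

set_option autoImplicit false

namespace Pool.Agent.Helper2.VTF

open Pool.Agent.Helper38.VF
open scoped RealInnerProductSpace

universe u

section

variable {H₁ H₂ : Type u} [NormedAddCommGroup H₁] [InnerProductSpace ℝ H₁]
  [CompleteSpace H₁] [NormedAddCommGroup H₂] [InnerProductSpace ℝ H₂] [CompleteSpace H₂]
  (C : H₁ →L[ℝ] H₂)

/-- A two-sided inverse of `C C† + ε`. -/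
theorem exists_inv {ε : ℝ} (hε : 0 < ε) : ∃ S : H₂ →L[ℝ] H₂,
    (∀ y, C (C.adjoint (S y)) + ε • S y = y) ∧ ∀ y, S (C (C.adjoint y)) + ε • S y = y := by
  set T : H₂ →L[ℝ] H₂ := C ∘L C.adjoint + ε • ContinuousLinearMap.id ℝ H₂ with hT
  have hTa : ∀ y, T y = C (C.adjoint y) + ε • y := fun y => rfl
  have hu : IsUnit T := by
    refine ContinuousLinearMap.isUnit_of_forall_le_norm_inner_map T (c := ε.toNNReal)
      (Real.toNNReal_pos.2 hε) ?_
    intro x
    have h1 : ⟪T x, x⟫ = ‖C.adjoint x‖ ^ 2 + ε * ‖x‖ ^ 2 := by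
      rw [hTa, inner_add_left, real_inner_smul_left, real_inner_self_eq_norm_sq,
        ← ContinuousLinearMap.adjoint_inner_right, real_inner_self_eq_norm_sq]
    rw [h1, Real.norm_of_nonneg (by positivity), Real.coe_toNNReal _ hε.le]
    have h2 := sq_nonneg ‖C.adjoint x‖
    nlinarith
  obtain ⟨⟨_, S, h1, h2⟩, rfl⟩ := hu
  refine ⟨S, fun y => ?_, fun y => ?_⟩
  · have := congrArg (fun f : H₂ →L[ℝ] H₂ => f y) h1
    simpa [hTa] using this
  · have := congrArg (fun f : H₂ →L[ℝ] H₂ => f y) h2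
    simpa [hTa] using this

theorem inner_le {ε : ℝ} (hε : 0 < ε) {S : H₂ →L[ℝ] H₂}
    (hS : ∀ y, C (C.adjoint (S y)) + ε • S y = y) (x : H₁) :
    ‖C.adjoint (S (C x))‖ ≤ ‖x‖ ∧ ε * ‖S (C x)‖ ^ 2 ≤ ‖x‖ ^ 2 := by
  set y := S (C x) with hy
  have h1 : ‖C.adjoint y‖ ^ 2 + ε * ‖y‖ ^ 2 = ⟪C.adjoint y, x⟫ := by
    rw [ContinuousLinearMap.adjoint_inner_left, ← hS (C x), ← hy, inner_add_right,
      real_inner_smul_right, real_inner_self_eq_norm_sq, ← ContinuousLinearMap.adjoint_inner_left,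
      real_inner_self_eq_norm_sq]
  have h2 : ⟪C.adjoint y, x⟫ ≤ ‖C.adjoint y‖ * ‖x‖ := real_inner_le_norm _ _
  have h3 : 0 ≤ ε * ‖y‖ ^ 2 := by positivity
  have h4 : ‖C.adjoint y‖ ≤ ‖x‖ := by
    by_contra hlt
    push Not at hlt
    nlinarith [norm_nonneg x, norm_nonneg (C.adjoint y)]
  refine ⟨h4, ?_⟩
  nlinarith [norm_nonneg x, norm_nonneg (C.adjoint y), sq_nonneg ‖C.adjoint y‖]

theorem eps_norm_le {ε : ℝ} {S : H₂ →L[ℝ] H₂}
    (hS : ∀ y, C (C.adjoint (S y)) + ε • S y = y) (w : H₂) : ε * ‖S w‖ ≤ ‖w‖ := by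
  set y := S w with hy
  have h1 : ‖C.adjoint y‖ ^ 2 + ε * ‖y‖ ^ 2 = ⟪y, w⟫ := by
    rw [← hS w, ← hy, inner_add_right, real_inner_smul_right, real_inner_self_eq_norm_sq,
      ← ContinuousLinearMap.adjoint_inner_left, real_inner_self_eq_norm_sq]
  have h2 : ⟪y, w⟫ ≤ ‖y‖ * ‖w‖ := real_inner_le_norm _ _
  by_contra hlt
  push Not at hlt
  have h3 : 0 < ‖y‖ := by
    by_contra h0
    have : ‖y‖ = 0 := le_antisymm (not_lt.1 h0) (norm_nonneg _)
    rw [this, mul_zero] at hlt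
    exact absurd hlt (not_lt.2 (norm_nonneg _))
  nlinarith [sq_nonneg ‖C.adjoint y‖, mul_lt_mul_of_pos_left hlt h3]

theorem adj_eqv (U₁ : H₁ ≃ₗᵢ[ℝ] H₁) (U₂ : H₂ ≃ₗᵢ[ℝ] H₂) (h : ∀ x, C (U₁ x) = U₂ (C x))
    (y : H₂) : C.adjoint (U₂ y) = U₁ (C.adjoint y) := by
  refine ext_inner_left ℝ fun x => ?_
  rw [ContinuousLinearMap.adjoint_inner_right]
  have h1 : C x = U₂ (C (U₁.symm x)) := by rw [← h, U₁.apply_symm_apply]
  rw [h1, U₂.inner_map_map, ← ContinuousLinearMap.adjoint_inner_right, ← U₁.inner_map_map,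
    U₁.apply_symm_apply]

end

theorem tr2 : Tr2Stmt.{u} := by
  intro H₁ H₂ _ _ _ _ _ _ C hC k v η hη
  -- approximate `v j` by `C (x j)`
  have hx : ∀ j, ∃ x : H₁, ‖v j - C x‖ * (‖v j‖ + 1) ≤ η / 2 := by
    intro j
    have hpos : 0 < η / 2 / (‖v j‖ + 1) := by positivity
    obtain ⟨x, hx⟩ := hC.exists_dist_lt (v j) hpos
    refine ⟨x, ?_⟩
    rw [dist_eq_norm] at hx
    have := (lt_div_iff₀ (by positivity : (0 : ℝ) < ‖v j‖ + 1)).1 hx
    exact this.le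
  choose x hx using hx
  set M : ℝ := ∑ j, ‖x j‖ * (‖v j‖ + 1) + 1 with hM
  have hM1 : 0 < M := by positivity
  have hMj : ∀ j, ‖x j‖ * (‖v j‖ + 1) ≤ M := by
    intro j
    have := Finset.single_le_sum (f := fun j => ‖x j‖ * (‖v j‖ + 1))
      (fun i _ => by positivity) (Finset.mem_univ j)
    linarith
  set t : ℝ := η / (2 * M) with ht
  have htpos : 0 < t := by positivity
  have hε : 0 < t ^ 2 := by positivity
  obtain ⟨S, hS, hS'⟩ := exists_inv C hε
  refine ⟨S, ?_, ?_, ?_⟩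
  · intro x
    have h1 := (inner_le C hε hS x).1
    calc inner ℝ (C.adjoint (S (C x))) x ≤ ‖C.adjoint (S (C x))‖ * ‖x‖ := real_inner_le_norm _ _
      _ ≤ ‖x‖ * ‖x‖ := by gcongr
      _ = ‖x‖ ^ 2 := by ring
  · intro j
    have h1 : S (C (C.adjoint (v j))) = v j - t ^ 2 • S (v j) := by
      rw [eq_sub_iff_add_eq]; exact hS' _
    rw [h1, inner_sub_left, real_inner_self_eq_norm_sq, real_inner_smul_left]
    have h2 : t ^ 2 * inner ℝ (S (v j)) (v j) ≤ η := by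
      have h3 : S (v j) = S (C (x j)) + S (v j - C (x j)) := by
        rw [← map_add]; congr 1; abel
      have h4 : t * ‖S (C (x j))‖ ≤ ‖x j‖ := by
        have := (inner_le C hε hS (x j)).2
        have h5 : (t * ‖S (C (x j))‖) ^ 2 ≤ ‖x j‖ ^ 2 := by rw [mul_pow]; exact this
        exact le_of_sq_le_sq h5 (norm_nonneg _)
      have h6 := eps_norm_le C hS (v j - C (x j))
      have h7 : inner ℝ (S (v j)) (v j) ≤ (‖S (C (x j))‖ + ‖S (v j - C (x j))‖) * ‖v j‖ := by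
        refine (real_inner_le_norm _ _).trans ?_
        gcongr
        rw [h3]; exact norm_add_le _ _
      calc t ^ 2 * inner ℝ (S (v j)) (v j)
          ≤ t ^ 2 * ((‖S (C (x j))‖ + ‖S (v j - C (x j))‖) * ‖v j‖) := by gcongr
        _ = t * (t * ‖S (C (x j))‖) * ‖v j‖ + (t ^ 2 * ‖S (v j - C (x j))‖) * ‖v j‖ := by ring
        _ ≤ t * ‖x j‖ * (‖v j‖ + 1) + ‖v j - C (x j)‖ * (‖v j‖ + 1) := by
            have e1 : (0 : ℝ) ≤ ‖v j‖ := norm_nonneg _
            gcongr <;> linarith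
        _ ≤ t * M + η / 2 := by
            have := mul_le_mul_of_nonneg_left (hMj j) htpos.le
            have h8 := hx j
            nlinarith
        _ = η := by rw [ht]; field_simp; ring
    linarith
  · intro U₁ U₂ hU
    have hadj := adj_eqv C U₁ U₂ hU
    refine ⟨fun y => ?_, hadj⟩
    have h1 : U₂ y = C (C.adjoint (U₂ (S y))) + t ^ 2 • U₂ (S y) := by
      conv_lhs => rw [← hS y]
      rw [map_add, hadj, hU, map_smul]
    rw [h1, map_add, map_smul]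
    exact hS' _

end Pool.Agent.Helper2.VTF
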